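import Mathlib

/-!
The polynomials `P n` orthonormal for the weight `1 / cosh (π v)` (Meixner-Pollaczek, `λ = 1/2`,
`φ = π/2`): recurrence and the quantity `U n`.
-/

set_option autoImplicit false

namespace Pasc
open Real Filter Topology

/-- `P 0 = 1`, `P 1 = 2 v`, `(n+2) P (n+2) = 2 v P (n+1) - (n+1) P n` -/
noncomputable def P : ℕ → ℝ → ℝ
  | 0, _ => 1
  | 1, v => 2 * v
  | n + 2, v => (2 * v * P (n + 1) v - (n + 1) * P n v) / (n + 2)

/-- the weight -/
noncomputable def w (v : ℝ) : ℝ := (Real.cosh (π * v))⁻¹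

theorem w_pos (v : ℝ) : 0 < w v := inv_pos.mpr (Real.cosh_pos _)

theorem w_le_one (v : ℝ) : w v ≤ 1 := inv_le_one_of_one_le₀ (Real.one_le_cosh _)

theorem w_neg (v : ℝ) : w (-v) = w v := by simp [w]

theorem P_zero (v : ℝ) : P 0 v = 1 := rfl
theorem P_one (v : ℝ) : P 1 v = 2 * v := rfl

theorem P_rec (n : ℕ) (v : ℝ) : (n + 2 : ℝ) * P (n + 2) v = 2 * v * P (n + 1) v - (n + 1) * P n v := by
  have h : (n + 2 : ℝ) ≠ 0 := by positivity
  rw [P]
  field_simp

theorem P_neg (n : ℕ) (v : ℝ) : P n (-v) = (-1) ^ n * P n v := by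
  induction n using Nat.strong_induction_on with
  | _ n ih =>
    match n with
    | 0 => simp [P]
    | 1 => simp [P]
    | n + 2 =>
      have h : (n + 2 : ℝ) ≠ 0 := by positivity
      have h1 := P_rec n v
      have h2 := P_rec n (-v)
      rw [ih (n + 1) (by omega), ih n (by omega)] at h2
      apply mul_left_cancel₀ h
      rw [h2]
      have : (n + 2 : ℝ) * ((-1) ^ (n + 2) * P (n + 2) v) = (-1) ^ (n + 2) * ((n + 2 : ℝ) * P (n + 2) v) := by
        ring
      rw [this, h1]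
      ring

theorem P_continuous (n : ℕ) : Continuous (P n) := by
  induction n using Nat.strong_induction_on with
  | _ n ih =>
    match n with
    | 0 => exact continuous_const
    | 1 => exact (continuous_const.mul continuous_id)
    | n + 2 =>
      have h1 := ih (n + 1) (by omega)
      have h2 := ih n (by omega)
      change Continuous (fun v => (2 * v * P (n + 1) v - (n + 1) * P n v) / (n + 2))
      fun_prop

/-- the quasi-invariant, `U n v` is `(n+1) (P_{n+1}^2 + P_n^2) - 2 v P_{n+1} P_n - P_n^2` -/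
noncomputable def U (n : ℕ) (v : ℝ) : ℝ :=
  (n + 1) * (P (n + 1) v ^ 2 + P n v ^ 2) - 2 * v * P (n + 1) v * P n v - P n v ^ 2

theorem U_succ (n : ℕ) (v : ℝ) :
    (n + 2) * (U (n + 1) v - U n v) = 2 * v * P (n + 1) v * P n v + P n v ^ 2 := by
  have h := P_rec n v
  unfold U
  have h2 : (n + 2 : ℝ) * P (n + 1 + 1) v = 2 * v * P (n + 1) v - (n + 1) * P n v := h
  push_cast
  set a := P (n + 1 + 1) v
  set b := P (n + 1) v
  set c := P n v
  have h3 : (n + 2 : ℝ) * ((n + 2) * a ^ 2) = (2 * v * b - (n + 1) * c) ^ 2 := by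
    rw [← h2]; ring
  have h4 : (n + 2 : ℝ) * (2 * v * a * b) = 2 * v * b * (2 * v * b - (n + 1) * c) := by
    rw [← h2]; ring
  have e : (n + 2 : ℝ) * ((n + 1 + 1) * (a ^ 2 + b ^ 2) - 2 * v * a * b - b ^ 2 -
      ((n + 1) * (b ^ 2 + c ^ 2) - 2 * v * b * c - c ^ 2)) =
      (n + 2 : ℝ) * ((n + 2) * a ^ 2) + (n + 2) * ((n + 2) * b ^ 2) - (n + 2 : ℝ) * (2 * v * a * b)
      - (n + 2) * b ^ 2 - (n + 2) * ((n + 1) * (b ^ 2 + c ^ 2) - 2 * v * b * c - c ^ 2) := by ring
  rw [e, h3, h4]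
  ring

/-- `s n v = P_{n+1}^2 + P_n^2` -/
noncomputable def sq (n : ℕ) (v : ℝ) : ℝ := P (n + 1) v ^ 2 + P n v ^ 2

theorem sq_nonneg' (n : ℕ) (v : ℝ) : 0 ≤ sq n v := by unfold sq; positivity

theorem cross_le (n : ℕ) (v : ℝ) : |2 * v * P (n + 1) v * P n v| ≤ |v| * sq n v := by
  have h : |2 * v * P (n + 1) v * P n v| = |v| * (2 * |P (n + 1) v| * |P n v|) := by
    rw [abs_mul, abs_mul, abs_mul, abs_two]; ring
  rw [h]
  apply mul_le_mul_of_nonneg_left _ (abs_nonneg v)
  unfold sq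
  nlinarith [sq_nonneg (|P (n + 1) v| - |P n v|), sq_abs (P (n + 1) v), sq_abs (P n v)]

theorem U_lower (n : ℕ) (v : ℝ) : (n - |v|) * sq n v ≤ U n v := by
  have h := cross_le n v
  have h1 := abs_le.mp h
  have h2 : P n v ^ 2 ≤ sq n v := by unfold sq; nlinarith [sq_nonneg (P (n + 1) v)]
  have : U n v = (n + 1) * sq n v - 2 * v * P (n + 1) v * P n v - P n v ^ 2 := by
    unfold U sq; ring
  rw [this]
  nlinarith [h1.2]

theorem U_upper (n : ℕ) (v : ℝ) : U n v ≤ (n + 1 + |v|) * sq n v := by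
  have h := cross_le n v
  have h1 := abs_le.mp h
  have : U n v = (n + 1) * sq n v - 2 * v * P (n + 1) v * P n v - P n v ^ 2 := by
    unfold U sq; ring
  rw [this]
  nlinarith [h1.1, sq_nonneg (P n v)]

theorem U_diff (n : ℕ) (v : ℝ) : |U n v - n * sq n v| ≤ (1 + |v|) * sq n v := by
  rw [abs_le]
  constructor
  · nlinarith [U_lower n v, sq_nonneg' n v]
  · nlinarith [U_upper n v]

theorem U_step (n : ℕ) (v : ℝ) : |U (n + 1) v - U n v| ≤ (|v| + 1) * sq n v / (n + 2) := by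
  have h := U_succ n v
  have h2 : (0 : ℝ) < n + 2 := by positivity
  have e : U (n + 1) v - U n v = (2 * v * P (n + 1) v * P n v + P n v ^ 2) / (n + 2) := by
    field_simp; linarith
  rw [e, abs_div, abs_of_pos h2]
  apply div_le_div_of_nonneg_right _ h2.le
  calc |2 * v * P (n + 1) v * P n v + P n v ^ 2|
      ≤ |2 * v * P (n + 1) v * P n v| + |P n v ^ 2| := abs_add_le _ _
    _ ≤ |v| * sq n v + sq n v := by
        apply add_le_add (cross_le n v)
        rw [abs_of_nonneg (sq_nonneg _)]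
        unfold sq; nlinarith [sq_nonneg (P (n + 1) v)]
    _ = (|v| + 1) * sq n v := by ring

end Pasc
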